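import Pool.Agent.H983R2.GC.Defs

set_option autoImplicit false

namespace Pool.Agent.H983R2.GC

open Finset

variable {Ω V C : Type} [Fintype Ω] [Fintype V] [DecidableEq V] [Fintype C] [DecidableEq C]

omit [Fintype C] in
theorem tensor_mem {X : Ω → V → C} {S : Finset V} {ω ξ : Ω} :
    ξ ∈ atom X S ω ↔ ∀ v ∈ S, X ξ v = X ω v := by
  simp [atom]

omit [Fintype C] in
theorem tensor_self (X : Ω → V → C) (S : Finset V) (ω : Ω) : ω ∈ atom X S ω :=
  tensor_mem.2 fun _ _ => rfl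

omit [Fintype C] in
theorem tensor_symm {X : Ω → V → C} {S : Finset V} {ω ξ : Ω} :
    ξ ∈ atom X S ω ↔ ω ∈ atom X S ξ := by
  rw [tensor_mem, tensor_mem]
  exact ⟨fun h v hv => (h v hv).symm, fun h v hv => (h v hv).symm⟩

omit [Fintype C] in
theorem tensor_atom_eq {X : Ω → V → C} {S : Finset V} {ω ξ : Ω}
    (h : ∀ v ∈ S, X ξ v = X ω v) : atom X S ξ = atom X S ω := by
  ext ζ
  rw [tensor_mem, tensor_mem]
  exact ⟨fun h' v hv => (h' v hv).trans (h v hv), fun h' v hv => (h' v hv).trans (h v hv).symm⟩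

omit [Fintype C] in
theorem tensor_card_pos (X : Ω → V → C) (S : Finset V) (ω : Ω) :
    (0 : ℝ) < ((atom X S ω).card : ℝ) := by
  have : 0 < (atom X S ω).card := Finset.card_pos.2 ⟨ω, tensor_self X S ω⟩
  exact_mod_cast this

omit [Fintype C] in
theorem tensor_cE_eq {X : Ω → V → C} {S : Finset V} {ω ξ : Ω} (f : Ω → ℝ)
    (h : ∀ v ∈ S, X ξ v = X ω v) : cE X S f ξ = cE X S f ω := by
  unfold cE
  rw [tensor_atom_eq h]

omit [Fintype C] in
theorem tensor_cE_pos (X : Ω → V → C) (S : Finset V) (f : Ω → ℝ) (hf : ∀ ω, 0 < f ω) (ω : Ω) :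
    0 < cE X S f ω :=
  div_pos (Finset.sum_pos (fun ξ _ => hf ξ) ⟨ω, tensor_self X S ω⟩) (tensor_card_pos X S ω)

omit [Fintype C] in
/-- averaging does not change the total sum -/
theorem tensor_avg (X : Ω → V → C) (S : Finset V) (g : Ω → ℝ) :
    ∑ ω, cE X S g ω = ∑ ω, g ω := by
  classical
  unfold cE
  have h1 : ∀ ω, (∑ ξ ∈ atom X S ω, g ξ) / ((atom X S ω).card : ℝ) =
      ∑ ξ, if ξ ∈ atom X S ω then g ξ / ((atom X S ω).card : ℝ) else 0 := by
    intro ω
    rw [Finset.sum_div, Finset.sum_ite_mem, Finset.univ_inter]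
  rw [Finset.sum_congr rfl fun ω _ => h1 ω, Finset.sum_comm]
  refine Finset.sum_congr rfl fun ξ _ => ?_
  have h2 : ∀ ω, (if ξ ∈ atom X S ω then g ξ / ((atom X S ω).card : ℝ) else 0) =
      if ω ∈ atom X S ξ then g ξ / ((atom X S ξ).card : ℝ) else 0 := by
    intro ω
    by_cases h : ξ ∈ atom X S ω
    · rw [if_pos h, if_pos (tensor_symm.1 h), tensor_atom_eq (tensor_mem.1 h)]
    · rw [if_neg h, if_neg fun h' => h (tensor_symm.1 h')]
  rw [Finset.sum_congr rfl fun ω _ => h2 ω, Finset.sum_ite_mem, Finset.univ_inter,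
    Finset.sum_const, nsmul_eq_mul]
  have := tensor_card_pos X S ξ
  field_simp

omit [Fintype C] in
/-- the tower property -/
theorem tensor_tower (X : Ω → V → C) {S S' : Finset V} (hS : S ⊆ S') (f : Ω → ℝ) (ω : Ω) :
    ∑ ξ ∈ atom X S ω, cE X S' f ξ = ∑ ξ ∈ atom X S ω, f ξ := by
  classical
  have h := tensor_avg X S' (fun ζ => if ζ ∈ atom X S ω then f ζ else 0)
  rw [Finset.sum_ite_mem, Finset.univ_inter] at h
  have h0 : ∑ ξ ∈ atom X S ω, cE X S' f ξ =
      ∑ ξ, if ξ ∈ atom X S ω then cE X S' f ξ else 0 := by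
    rw [Finset.sum_ite_mem, Finset.univ_inter]
  rw [← h, h0]
  refine Finset.sum_congr rfl fun ξ _ => ?_
  have hsub : ∀ ζ ∈ atom X S' ξ, (ζ ∈ atom X S ω ↔ ξ ∈ atom X S ω) := by
    intro ζ hζ
    rw [tensor_mem] at hζ
    rw [tensor_mem, tensor_mem]
    exact ⟨fun h' v hv => (hζ v (hS hv)).symm.trans (h' v hv),
      fun h' v hv => (hζ v (hS hv)).trans (h' v hv)⟩
  unfold cE
  by_cases hξ : ξ ∈ atom X S ω
  · rw [if_pos hξ]
    congr 1
    refine Finset.sum_congr rfl fun ζ hζ => ?_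
    simp only
    rw [if_pos ((hsub ζ hζ).2 hξ)]
  · rw [if_neg hξ]
    rw [Finset.sum_eq_zero, zero_div]
    intro ζ hζ
    rw [if_neg fun h' => hξ ((hsub ζ hζ).1 h')]

/-- product structure of the atoms -/
theorem tensor_prod (X : Ω → V → C) (hX : Function.Injective X) (G : SimpleGraph V)
    (hCI : CIB X G) (f : Ω → ℝ) (S₁ S₂ : Finset V)
    (hd : Disjoint S₁ S₂) (hn : ∀ a ∈ S₁, ∀ b ∈ S₂, ¬ G.Adj a b) (ω : Ω) :
    (∑ ξ ∈ atom X (univ \ (S₁ ∪ S₂)) ω, f ξ) ^ 2 =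
      ((atom X (univ \ (S₁ ∪ S₂)) ω).card : ℝ) *
        ∑ ξ ∈ atom X (univ \ (S₁ ∪ S₂)) ω, cE X (univ \ S₁) f ξ * cE X (univ \ S₂) f ξ := by
  classical
  set A := atom X (univ \ (S₁ ∪ S₂)) ω with hA
  have hex : ∀ p : Ω × Ω, ∃ η : Ω, p.1 ∈ A → p.2 ∈ A →
      (∀ v ∈ S₁, X η v = X p.2 v) ∧ ∀ v, v ∉ S₁ → X η v = X p.1 v := by
    intro p
    by_cases hp : p.1 ∈ A ∧ p.2 ∈ A
    · have h1 := tensor_mem.1 hp.1
      have h2 := tensor_mem.1 hp.2
      obtain ⟨η, hη1, hη2⟩ := hCI S₁ S₂ hd hn p.2 p.1 (fun v hv1 hv2 => by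
        have hv : v ∈ univ \ (S₁ ∪ S₂) := by
          rw [Finset.mem_sdiff, Finset.mem_union]
          exact ⟨Finset.mem_univ v, fun h => h.elim hv1 hv2⟩
        exact (h2 v hv).trans (h1 v hv).symm)
      exact ⟨η, fun _ _ => ⟨hη1, hη2⟩⟩
    · exact ⟨p.1, fun h1 h2 => absurd ⟨h1, h2⟩ hp⟩
  choose gl hgl using hex
  have hglA : ∀ a b : Ω, a ∈ A → b ∈ A → gl (a, b) ∈ A := by
    intro a b ha hb
    obtain ⟨h1, h2⟩ := hgl (a, b) ha hb
    rw [hA, tensor_mem]
    intro v hv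
    have hv' : v ∉ S₁ := by
      rw [Finset.mem_sdiff, Finset.mem_union] at hv
      exact fun h => hv.2 (Or.inl h)
    exact (h2 v hv').trans (tensor_mem.1 ha v hv)
  have hinv : ∀ a b : Ω, a ∈ A → b ∈ A → gl (gl (a, b), gl (b, a)) = a := by
    intro a b ha hb
    obtain ⟨h1, h2⟩ := hgl (a, b) ha hb
    obtain ⟨k1, k2⟩ := hgl (b, a) hb ha
    obtain ⟨l1, l2⟩ := hgl (gl (a, b), gl (b, a)) (hglA a b ha hb) (hglA b a hb ha)
    apply hX
    funext v
    by_cases hv : v ∈ S₁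
    · exact (l1 v hv).trans (k1 v hv)
    · exact (l2 v hv).trans (h2 v hv)
  have hc1 : ∀ a b : Ω, a ∈ A → b ∈ A →
      cE X (univ \ S₁) f (gl (a, b)) = cE X (univ \ S₁) f a := by
    intro a b ha hb
    obtain ⟨h1, h2⟩ := hgl (a, b) ha hb
    refine tensor_cE_eq f fun v hv => ?_
    exact h2 v (Finset.mem_sdiff.1 hv).2
  have hc2 : ∀ a b : Ω, a ∈ A → b ∈ A →
      cE X (univ \ S₂) f (gl (a, b)) = cE X (univ \ S₂) f b := by
    intro a b ha hb
    obtain ⟨h1, h2⟩ := hgl (a, b) ha hb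
    refine tensor_cE_eq f fun v hv => ?_
    by_cases hv1 : v ∈ S₁
    · exact h1 v hv1
    · have hv' : v ∈ univ \ (S₁ ∪ S₂) := by
        rw [Finset.mem_sdiff, Finset.mem_union]
        exact ⟨Finset.mem_univ v, fun h => h.elim hv1 (Finset.mem_sdiff.1 hv).2⟩
      exact (h2 v hv1).trans ((tensor_mem.1 ha v hv').trans (tensor_mem.1 hb v hv').symm)
  have hs1 : ∑ ξ ∈ A, cE X (univ \ S₁) f ξ = ∑ ξ ∈ A, f ξ :=
    tensor_tower X (Finset.sdiff_subset_sdiff le_rfl Finset.subset_union_left) f ω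
  have hs2 : ∑ ξ ∈ A, cE X (univ \ S₂) f ξ = ∑ ξ ∈ A, f ξ :=
    tensor_tower X (Finset.sdiff_subset_sdiff le_rfl Finset.subset_union_right) f ω
  calc (∑ ξ ∈ A, f ξ) ^ 2 = (∑ ξ ∈ A, cE X (univ \ S₁) f ξ) * ∑ ξ ∈ A, cE X (univ \ S₂) f ξ := by
        rw [hs1, hs2, pow_two]
    _ = ∑ p ∈ A ×ˢ A, cE X (univ \ S₁) f p.1 * cE X (univ \ S₂) f p.2 := by
        rw [Finset.sum_mul_sum, Finset.sum_product]
    _ = ∑ p ∈ A ×ˢ A, cE X (univ \ S₁) f p.1 * cE X (univ \ S₂) f p.1 := by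
        refine Finset.sum_bij' (fun p _ => (gl (p.1, p.2), gl (p.2, p.1)))
          (fun p _ => (gl (p.1, p.2), gl (p.2, p.1))) ?_ ?_ ?_ ?_ ?_
        · intro p hp
          rw [Finset.mem_product] at hp ⊢
          exact ⟨hglA _ _ hp.1 hp.2, hglA _ _ hp.2 hp.1⟩
        · intro p hp
          rw [Finset.mem_product] at hp ⊢
          exact ⟨hglA _ _ hp.1 hp.2, hglA _ _ hp.2 hp.1⟩
        · intro p hp
          rw [Finset.mem_product] at hp
          exact Prod.ext (hinv _ _ hp.1 hp.2) (hinv _ _ hp.2 hp.1)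
        · intro p hp
          rw [Finset.mem_product] at hp
          exact Prod.ext (hinv _ _ hp.1 hp.2) (hinv _ _ hp.2 hp.1)
        · intro p hp
          rw [Finset.mem_product] at hp
          simp only
          rw [hc1 _ _ hp.1 hp.2, hc2 _ _ hp.1 hp.2]
    _ = (A.card : ℝ) * ∑ ξ ∈ A, cE X (univ \ S₁) f ξ * cE X (univ \ S₂) f ξ := by
        rw [Finset.sum_product_right]
        simp only
        rw [Finset.sum_const, nsmul_eq_mul]

theorem tensor (X : Ω → V → C) (hX : Function.Injective X) (G : SimpleGraph V)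
    (hCI : CIB X G) (f : Ω → ℝ) (hf : ∀ ω, 0 < f ω) (S₁ S₂ : Finset V)
    (hd : Disjoint S₁ S₂) (hn : ∀ a ∈ S₁, ∀ b ∈ S₂, ¬ G.Adj a b) :
    hh X f univ - hh X f (univ \ (S₁ ∪ S₂)) ≤
      (hh X f univ - hh X f (univ \ S₁)) + (hh X f univ - hh X f (univ \ S₂)) := by
  classical
  set T := univ \ (S₁ ∪ S₂) with hT
  have hp := fun S ω => tensor_cE_pos X S f hf ω
  -- the sum of `c₁ c₂ / c_T`
  have hsum : ∑ ω, cE X (univ \ S₁) f ω * cE X (univ \ S₂) f ω / cE X T f ω = ∑ ω, f ω := by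
    rw [← tensor_avg X T (fun ω => cE X (univ \ S₁) f ω * cE X (univ \ S₂) f ω / cE X T f ω),
      ← tensor_avg X T f]
    refine Finset.sum_congr rfl fun ω _ => ?_
    have hprod := tensor_prod X hX G hCI f S₁ S₂ hd hn ω
    rw [← hT] at hprod
    have hm := tensor_card_pos X T ω
    have hcT : ∑ ξ ∈ atom X T ω, f ξ = ((atom X T ω).card : ℝ) * cE X T f ω := by
      unfold cE
      field_simp
    have h1 : ∑ ξ ∈ atom X T ω, cE X (univ \ S₁) f ξ * cE X (univ \ S₂) f ξ / cE X T f ξ =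
        (∑ ξ ∈ atom X T ω, cE X (univ \ S₁) f ξ * cE X (univ \ S₂) f ξ) / cE X T f ω := by
      rw [Finset.sum_div]
      refine Finset.sum_congr rfl fun ξ hξ => ?_
      rw [tensor_cE_eq f (tensor_mem.1 hξ)]
    have h2 : ∑ ξ ∈ atom X T ω, cE X (univ \ S₁) f ξ * cE X (univ \ S₂) f ξ =
        ((atom X T ω).card : ℝ) * cE X T f ω ^ 2 := by
      rw [hcT] at hprod
      have h3 : ((atom X T ω).card : ℝ) * (((atom X T ω).card : ℝ) * cE X T f ω ^ 2) =
          ((atom X T ω).card : ℝ) *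
            ∑ ξ ∈ atom X T ω, cE X (univ \ S₁) f ξ * cE X (univ \ S₂) f ξ := by
        rw [← hprod]
        ring
      exact (mul_left_cancel₀ hm.ne' h3).symm
    have h4 : cE X T (fun ω => cE X (univ \ S₁) f ω * cE X (univ \ S₂) f ω / cE X T f ω) ω =
        (∑ ξ ∈ atom X T ω, cE X (univ \ S₁) f ξ * cE X (univ \ S₂) f ξ / cE X T f ξ) /
          ((atom X T ω).card : ℝ) := rfl
    rw [h4, h1, h2]
    have := hp T ω
    field_simp
  -- termwise inequality
  have hterm : ∀ ω, f ω - cE X (univ \ S₁) f ω * cE X (univ \ S₂) f ω / cE X T f ω ≤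
      f ω * Real.log (cE X univ f ω) + f ω * Real.log (cE X T f ω) -
        f ω * Real.log (cE X (univ \ S₁) f ω) - f ω * Real.log (cE X (univ \ S₂) f ω) := by
    intro ω
    have hu : cE X univ f ω = f ω := by
      have hatom : atom X univ ω = {ω} := by
        ext ξ
        rw [tensor_mem, Finset.mem_singleton]
        exact ⟨fun h => hX (funext fun v => h v (Finset.mem_univ v)), fun h v _ => by rw [h]⟩
      unfold cE
      rw [hatom, Finset.sum_singleton, Finset.card_singleton]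
      simp
    rw [hu]
    have p0 := hf ω
    have p1 := hp (univ \ S₁) ω
    have p2 := hp (univ \ S₂) ω
    have p3 := hp T ω
    set x := cE X (univ \ S₁) f ω * cE X (univ \ S₂) f ω / (f ω * cE X T f ω) with hx
    have hx0 : 0 < x := by positivity
    have hlog := Real.log_le_sub_one_of_pos hx0
    have hlx : Real.log x = Real.log (cE X (univ \ S₁) f ω) + Real.log (cE X (univ \ S₂) f ω) -
        (Real.log (f ω) + Real.log (cE X T f ω)) := by
      rw [hx, Real.log_div (by positivity) (by positivity), Real.log_mul p1.ne' p2.ne',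
        Real.log_mul p0.ne' p3.ne']
    have hfx : f ω * x = cE X (univ \ S₁) f ω * cE X (univ \ S₂) f ω / cE X T f ω := by
      rw [hx]
      field_simp
    rw [hlx] at hlog
    have h5 := mul_le_mul_of_nonneg_left hlog p0.le
    rw [mul_sub, mul_sub, hfx, mul_one, mul_add, mul_add] at h5
    linarith
  have htot := Finset.sum_le_sum fun ω (_ : ω ∈ (univ : Finset Ω)) => hterm ω
  rw [Finset.sum_sub_distrib, hsum, sub_self, Finset.sum_sub_distrib, Finset.sum_sub_distrib,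
    Finset.sum_add_distrib] at htot
  unfold hh
  linarith

end Pool.Agent.H983R2.GC
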